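import Mathlib

/-!
Points of the Ziegler spectrum. Modules are left modules; right `R`-modules are left modules over
the opposite ring.
-/

set_option autoImplicit false

universe v

namespace Pool.Agent.Lib.MP_cfafa5_al

/-- `f : M → N` is a pure embedding: it is injective and every finite system of linear equations
with constants from `M` that has a solution in `N` has a solution in `M`. -/
def IsPureEmbedding {S : Type} [Ring S] {M N : Type v} [AddCommGroup M] [Module S M]
    [AddCommGroup N] [Module S N] (f : M →ₗ[S] N) : Prop :=
  Function.Injective f ∧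
    ∀ (m n : ℕ) (b : Fin m → Fin n → S) (c : Fin m → M),
      (∃ y : Fin n → N, ∀ i, ∑ j, b i j • y j = f (c i)) →
        ∃ y : Fin n → M, ∀ i, ∑ j, b i j • y j = c i

/-- `Q` is pure-injective: homomorphisms into `Q` extend along pure embeddings. -/
def IsPureInjective (S : Type) [Ring S] (Q : Type v) [AddCommGroup Q] [Module S Q] : Prop :=
  ∀ (M N : Type v) [AddCommGroup M] [Module S M] [AddCommGroup N] [Module S N]
    (f : M →ₗ[S] N), IsPureEmbedding f → ∀ g : M →ₗ[S] Q, ∃ h : N →ₗ[S] Q, ∀ x, h (f x) = g x

/-- `Q` is indecomposable: it is nonzero and not a direct sum of two nonzero submodules. -/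
def IsIndecomposable (S : Type) [Ring S] (Q : Type v) [AddCommGroup Q] [Module S Q] : Prop :=
  Nontrivial Q ∧ ∀ A B : Submodule S Q, IsCompl A B → A = ⊥ ∨ B = ⊥

/-- Indecomposable pure-injective left `S`-modules. -/
def PInj (S : Type) [Ring S] : Type (v + 1) :=
  {Q : ModuleCat.{v} S // IsIndecomposable S Q ∧ IsPureInjective S Q}

/-- The set of points of the Ziegler spectrum of left `S`-modules: isomorphism classes of
indecomposable pure-injective left `S`-modules. -/
def Zg (S : Type) [Ring S] : Type (v + 1) :=
  Quot fun P Q : PInj.{v} S => Nonempty (P.1 ≃ₗ[S] Q.1)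

end Pool.Agent.Lib.MP_cfafa5_al
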