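import Mathlib
import Pool.Agent.Lib.MP_cfafa5_al.Defs

/-!
Injective hulls, and two ways of counting points of the Ziegler spectrum.
-/

set_option autoImplicit false

universe v w

namespace Pool.Agent.Lib.MP_cfafa5_al

section hull

variable {S : Type} [Ring S] {Q : Type w} [AddCommGroup Q] [Module S Q]

/-- `U` is essential in `E`. -/
def Ess (U E : Submodule S Q) : Prop := ∀ y ∈ E, y ≠ 0 → ∃ r : S, r • y ∈ U ∧ r • y ≠ 0

lemma exists_hull (hQ : Module.Baer S Q) (U : Submodule S Q) :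
    ∃ p : Q →ₗ[S] Q, (∀ u ∈ U, p u = u) ∧ (∀ y, p (p y) = p y) ∧ Ess U (LinearMap.range p) := by
  obtain ⟨E, hUE, hE⟩ := zorn_le_nonempty₀ {E : Submodule S Q | Ess U E} (fun c hc hch E₀ hE₀ =>
    ⟨sSup c, fun y hy hy0 => by
      obtain ⟨E, hE, hyE⟩ := (Submodule.mem_sSup_of_directed ⟨E₀, hE₀⟩ hch.directedOn).1 hy
      exact hc hE y hyE hy0, fun E hE => le_sSup hE⟩) U
    (fun y hy hy0 => ⟨1, by simpa using hy, by simpa using hy0⟩)
  obtain ⟨C, -, hC⟩ := zorn_le_nonempty₀ {C : Submodule S Q | ∀ y ∈ C, y ∈ E → y = 0}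
    (fun c hc hch C₀ hC₀ => ⟨sSup c, fun y hy hyE => by
      obtain ⟨C, hC, hyC⟩ := (Submodule.mem_sSup_of_directed ⟨C₀, hC₀⟩ hch.directedOn).1 hy
      exact hc hC y hyC hyE, fun E hE => le_sSup hE⟩) ⊥ (fun y hy _ => hy)
  obtain ⟨g, hg⟩ := hQ.extension_property (C.mkQ ∘ₗ E.subtype) (by
    rw [injective_iff_map_eq_zero]
    intro y hy
    exact Subtype.ext (hC.prop y ((Submodule.Quotient.mk_eq_zero C).1 hy) y.2)) E.subtype
  have hg' : ∀ y ∈ E, g (C.mkQ y) = y := fun y hy => LinearMap.congr_fun hg ⟨y, hy⟩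
  have h1 : ∀ q : Q, q ∉ C → ∃ r : S, ∃ y ∈ E, y ≠ 0 ∧ C.mkQ (r • q) = C.mkQ y := by
    intro q hq
    by_contra hcon
    have h2 : C ⊔ Submodule.span S {q} ≤ C := hC.le_of_ge (fun y hy hyE => by
      obtain ⟨c, hc, z, hz, rfl⟩ := Submodule.mem_sup.1 hy
      obtain ⟨r, rfl⟩ := Submodule.mem_span_singleton.1 hz
      by_contra h0
      refine hcon ⟨r, _, hyE, h0, ?_⟩
      rw [map_add, Submodule.mkQ_apply C c, (Submodule.Quotient.mk_eq_zero C).2 hc, zero_add])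
      le_sup_left
    exact hq (h2 (Submodule.mem_sup_right (Submodule.mem_span_singleton_self q)))
  have h2 : Ess U (LinearMap.range (g ∘ₗ C.mkQ)) := by
    rintro _ ⟨q, rfl⟩ hq0
    obtain ⟨r, y, hy, hy0, hry⟩ := h1 q fun hq => hq0 (by
      rw [LinearMap.comp_apply, Submodule.mkQ_apply, (Submodule.Quotient.mk_eq_zero C).2 hq,
        map_zero])
    obtain ⟨s, hs, hs0⟩ := hE.prop y hy hy0
    have h3 : (s * r) • (g ∘ₗ C.mkQ) q = s • y := by
      rw [mul_smul, ← map_smul, LinearMap.comp_apply, hry, hg' y hy]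
    exact ⟨s * r, h3 ▸ hs, h3 ▸ hs0⟩
  have h3 : LinearMap.range (g ∘ₗ C.mkQ) ≤ E := hE.le_of_ge h2 fun y hy => ⟨y, hg' y hy⟩
  exact ⟨g ∘ₗ C.mkQ, fun u hu => hg' u (hUE hu), fun y => hg' _ (h3 ⟨y, rfl⟩), h2⟩

lemma ess_top (hQ : Module.Baer S Q) (hi : IsIndecomposable S Q) {x : Q} (hx : x ≠ 0) {y : Q}
    (hy : y ≠ 0) : ∃ r s : S, s • x = r • y ∧ r • y ≠ 0 := by
  obtain ⟨p, h1, h2, h3⟩ := exists_hull hQ (Submodule.span S {x})
  have hx' := h1 x (Submodule.mem_span_singleton_self x)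
  have hp : IsIdempotentElem p := LinearMap.ext h2
  rcases hi.2 _ _ (LinearMap.IsIdempotentElem.isCompl hp) with h | h
  · exact absurd (show x ∈ (⊥ : Submodule S Q) from h ▸ ⟨x, hx'⟩) hx
  · have h4 : y - p y ∈ (⊥ : Submodule S Q) := by
      rw [← h, LinearMap.mem_ker, map_sub, h2, sub_self]
    obtain ⟨r, hr, hr0⟩ := h3 y ⟨y, (sub_eq_zero.1 h4).symm⟩ hy
    obtain ⟨s, hs⟩ := Submodule.mem_span_singleton.1 hr
    exact ⟨r, s, hs, hr0⟩

lemma exists_map {E : Type v} [AddCommGroup E] [Module S E] (hQ : Module.Baer S Q) {x : E} {x' : Q}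
    (h : ∀ r : S, r • x = 0 → r • x' = 0) : ∃ g : E →ₗ[S] Q, g x = x' := by
  set K := LinearMap.ker (LinearMap.toSpanSingleton S E x) with hK
  obtain ⟨g, hg⟩ := hQ.extension_property (K.liftQ (LinearMap.toSpanSingleton S E x) le_rfl)
    (LinearMap.ker_eq_bot.1 (Submodule.ker_liftQ_eq_bot' _ _ rfl))
    (K.liftQ (LinearMap.toSpanSingleton S Q x') fun r hr => h r hr)
  exact ⟨g, by simpa using LinearMap.congr_fun hg (K.mkQ 1)⟩

lemma equiv_of_ann {E : Type v} [AddCommGroup E] [Module S E] (hE : Module.Baer S E)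
    (hQ : Module.Baer S Q) (hiE : IsIndecomposable S E) (hiQ : IsIndecomposable S Q) {x : E}
    {x' : Q} (hx : x ≠ 0) (h : ∀ r : S, r • x = 0 ↔ r • x' = 0) : Nonempty (E ≃ₗ[S] Q) := by
  have hx' : x' ≠ 0 := fun h0 => hx (by simpa using (h 1).2 (by simp [h0]))
  obtain ⟨g, hg⟩ := exists_map hQ fun r => (h r).1
  have hinj : Function.Injective g := by
    rw [injective_iff_map_eq_zero]
    intro y hy
    by_contra hy0
    obtain ⟨r, s, h1, h2⟩ := ess_top hE hiE hx hy0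
    refine h2 (h1 ▸ (h s).2 ?_)
    rw [← hg, ← map_smul, h1, map_smul, hy, smul_zero]
  obtain ⟨g', hg'⟩ := hE.extension_property g hinj LinearMap.id
  have hg'' : ∀ y, g' (g y) = y := fun y => LinearMap.congr_fun hg' y
  refine ⟨LinearEquiv.ofBijective g ⟨hinj, fun y => ⟨g' y, ?_⟩⟩⟩
  by_contra hy
  obtain ⟨r, s, h1, h2⟩ := ess_top hQ hiQ hx' (sub_ne_zero.2 hy)
  have h3 : s • x = 0 := by
    rw [← hg'' (s • x), map_smul g, hg, h1, map_smul, map_sub, hg'', sub_self, smul_zero]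
  exact h2 (h1 ▸ (h s).1 h3)

end hull

section upper

variable {S : Type} [Ring S]

lemma exists_right_unit (hS : ∀ a : S, ∃ x, a * x * a = a) (I : Ideal S) {ι : Type}
    (s : Finset ι) (c : ι → S) (hc : ∀ i, c i ∈ I) : ∃ e ∈ I, ∀ i ∈ s, c i * e = c i := by
  classical
  induction s using Finset.induction_on with
  | empty => exact ⟨0, I.zero_mem, by simp⟩
  | insert j s _ ih =>
    obtain ⟨e, he, hs⟩ := ih
    obtain ⟨x, hx⟩ := hS (c j - c j * e)
    have h1 : x * (c j - c j * e) ∈ I := I.mul_mem_left _ (I.sub_mem (hc j) (I.mul_mem_left _ he))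
    refine ⟨e + (1 - e) * (x * (c j - c j * e)), I.add_mem he (I.mul_mem_left _ h1), fun i hi => ?_⟩
    rw [mul_add, ← mul_assoc, mul_sub, mul_one]
    rcases Finset.mem_insert.1 hi with rfl | hi
    · rw [← mul_assoc, hx, add_sub_cancel]
    · rw [hs i hi, sub_self, zero_mul, add_zero]

lemma baer_of_pure (hS : ∀ a : S, ∃ x, a * x * a = a) {Q : Type v} [AddCommGroup Q] [Module S Q]
    (hQ : IsPureInjective S Q) : Module.Baer S Q := by
  intro I g
  obtain ⟨h, hh⟩ := hQ (ULift.{v} I) (ULift.{v} S)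
    (ULift.moduleEquiv.symm.toLinearMap ∘ₗ I.subtype ∘ₗ ULift.moduleEquiv.toLinearMap)
    ⟨fun a b hab => ULift.ext _ _ (Subtype.ext (congrArg ULift.down hab)), by
      rintro m n b c ⟨y, hy⟩
      obtain ⟨e, he, hce⟩ := exists_right_unit hS I Finset.univ (fun i => (c i).down.1)
        fun i => (c i).down.2
      refine ⟨fun j => ULift.up ⟨(y j).down * e, I.mul_mem_left _ he⟩, fun i => ?_⟩
      apply ULift.moduleEquiv.injective (R := S)
      apply Subtype.ext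
      have h1 := congrArg (fun z => ULift.moduleEquiv (R := S) z * e) (hy i)
      simp only [map_sum, map_smul, Finset.sum_mul] at h1
      rw [map_sum, Submodule.coe_sum]
      refine Eq.trans ?_ (h1.trans (hce i (Finset.mem_univ i)))
      refine Finset.sum_congr rfl fun j _ => ?_
      simp [mul_assoc]⟩ (g ∘ₗ ULift.moduleEquiv.toLinearMap)
  exact ⟨h ∘ₗ ULift.moduleEquiv.symm.toLinearMap, fun x hx => hh (ULift.up ⟨x, hx⟩)⟩

theorem upper (hS : ∀ a : S, ∃ x, a * x * a = a) :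
    ∃ θ : Zg.{v} S → Ideal S, Function.Injective θ := by
  have h1 : ∀ P : PInj.{v} S, ∃ x : P.1, x ≠ 0 := fun P =>
    have := P.2.1.1
    exists_ne 0
  choose x hx using h1
  refine ⟨fun p => LinearMap.ker (LinearMap.toSpanSingleton S _ (x p.out)), fun p q hpq => ?_⟩
  rw [← Quot.out_eq p, ← Quot.out_eq q]
  refine Quot.sound (equiv_of_ann (baer_of_pure hS p.out.2.2) (baer_of_pure hS q.out.2.2)
    p.out.2.1 q.out.2.1 (hx p.out) (x' := x q.out) fun r => ?_)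
  exact SetLike.ext_iff.1 hpq r

end upper

section lower

variable {S : Type} [Ring S]

lemma exists_point (L : Ideal S) (h1 : (1 : S) ∉ L)
    (h2 : ∀ r ∉ L, ∀ s ∉ L, ∃ r' s' : S, r' * r - s' * s ∈ L ∧ r' * r ∉ L) :
    ∃ (P : PInj.{v} S) (x : P.1), (∀ r : S, r • x = 0 ↔ r ∈ L) ∧
      ∀ y : P.1, y ≠ 0 → ∃ r s : S, s • x = r • y ∧ r • y ≠ 0 := by
  obtain ⟨⟨J, hJ, f, hf⟩⟩ := (ModuleCat.enoughInjectives.{v} S).presentation
    (ModuleCat.of S (ULift.{v} (S ⧸ L)))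
  have hQ : Module.Baer S J := Module.Baer.of_injective
    (Module.injective_module_of_injective_object S J (inj := hJ))
  have hf' : Function.Injective f.hom := (ModuleCat.mono_iff_injective f).1 hf
  set x₀ : J := f.hom (ULift.up (Submodule.Quotient.mk 1)) with hx₀
  have hx : ∀ r : S, r • x₀ = 0 ↔ r ∈ L := fun r => by
    rw [hx₀, ← map_smul, map_eq_zero_iff _ hf', ← Submodule.Quotient.mk_eq_zero L]
    rw [← (ULift.moduleEquiv (R := S)).map_eq_zero_iff]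
    simp [← Submodule.Quotient.mk_smul]
  obtain ⟨p, hp1, hp2, hp3⟩ := exists_hull hQ (Submodule.span S {x₀})
  set x : LinearMap.range p := ⟨x₀, x₀, hp1 _ (Submodule.mem_span_singleton_self _)⟩ with hxdef
  have hx' : ∀ r : S, r • x = 0 ↔ r ∈ L := fun r => by
    rw [← hx, Subtype.ext_iff]
    rfl
  have hess : ∀ y : LinearMap.range p, y ≠ 0 → ∃ r s : S, s • x = r • y ∧ r • y ≠ 0 := by
    intro y hy
    obtain ⟨r, hr, hr0⟩ := hp3 y y.2 fun h0 => hy (Subtype.ext h0)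
    obtain ⟨s, hs⟩ := Submodule.mem_span_singleton.1 hr
    exact ⟨r, s, Subtype.ext hs, fun h0 => hr0 (congrArg Subtype.val h0)⟩
  refine ⟨⟨ModuleCat.of S (LinearMap.range p), ⟨⟨x, 0, fun h0 => h1 ((hx' 1).1 (by simp [h0]))⟩,
    fun A B hAB => ?_⟩, ?_⟩, x, hx', hess⟩
  · by_contra hcon
    rw [not_or] at hcon
    obtain ⟨a, ha, ha0⟩ := Submodule.exists_mem_ne_zero_of_ne_bot hcon.1
    obtain ⟨b, hb, hb0⟩ := Submodule.exists_mem_ne_zero_of_ne_bot hcon.2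
    obtain ⟨r, s, hrs, hr0⟩ := hess a ha0
    obtain ⟨r', s', hrs', hr0'⟩ := hess b hb0
    obtain ⟨t, t', ht, ht0⟩ := h2 s (fun h => hr0 (hrs ▸ (hx' s).2 h)) s'
      (fun h => hr0' (hrs' ▸ (hx' s').2 h))
    have h3 := (hx' _).2 ht
    rw [sub_smul, sub_eq_zero] at h3
    refine ht0 ((hx' _).1 (Submodule.disjoint_def.1 hAB.disjoint _ ?_ ?_))
    · rw [mul_smul, hrs]
      exact A.smul_mem _ (A.smul_mem _ ha)
    · rw [h3, mul_smul, hrs']
      exact B.smul_mem _ (B.smul_mem _ hb)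
  · intro M N _ _ _ _ i hi g
    obtain ⟨h, hh⟩ := hQ.extension_property i hi.1 ((LinearMap.range p).subtype ∘ₗ g)
    refine ⟨p.rangeRestrict ∘ₗ h, fun m => Subtype.ext ?_⟩
    obtain ⟨y, hy⟩ := (g m).2
    have h3 : h (i m) = p y := (LinearMap.congr_fun hh m).trans hy.symm
    show p (h (i m)) = _
    rw [h3, hp2, hy]

theorem lower {ι : Type} (L : ι → Ideal S) (h1 : ∀ i, (1 : S) ∉ L i)
    (h2 : ∀ i, ∀ r ∉ L i, ∀ s ∉ L i, ∃ r' s' : S, r' * r - s' * s ∈ L i ∧ r' * r ∉ L i)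
    (h3 : ∀ i j, ∀ r ∉ L i, ∀ s : S, (∀ a : S, a * r ∈ L i ↔ a * s ∈ L j) → i = j) :
    ∃ θ : ι → Zg.{v} S, Function.Injective θ := by
  choose P x hx hess using fun i => exists_point.{v} (L i) (h1 i) (h2 i)
  refine ⟨fun i => Quot.mk _ (P i), fun i j hij => ?_⟩
  have heq : Equivalence fun P Q : PInj.{v} S => Nonempty (P.1 ≃ₗ[S] Q.1) :=
    ⟨fun _ => ⟨LinearEquiv.refl _ _⟩, fun ⟨e⟩ => ⟨e.symm⟩, fun ⟨e⟩ ⟨e'⟩ => ⟨e.trans e'⟩⟩
  obtain ⟨e⟩ := heq.eqvGen_iff.1 (Quot.eqvGen_exact hij)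
  have hx0 : x i ≠ 0 := fun h0 => h1 i ((hx i 1).1 (by simp [h0]))
  obtain ⟨r, s, hrs, hr0⟩ := hess j (e (x i)) (by simpa using hx0)
  refine h3 i j r (fun h => hr0 ?_) s fun a => ?_
  · rw [← map_smul, (hx i r).2 h, map_zero]
  · rw [← hx, ← hx, mul_smul, mul_smul, hrs, ← map_smul, ← map_smul, e.map_eq_zero_iff]

end lower

end Pool.Agent.Lib.MP_cfafa5_al
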