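import Mathlib
import Pool.Agent.Lib.MP_cfafa5_al.Hull

/-!
The ring: eventually stable sequences of endomorphisms with finite rank increments.
-/

set_option autoImplicit false

namespace Pool.Agent.Lib.MP_cfafa5_al

/-- The field with two elements. -/
def F : Type := ZMod 2

instance : Field F := inferInstanceAs (Field (ZMod 2))

instance : Finite F := inferInstanceAs (Finite (ZMod 2))

lemma F_cases : ∀ c : F, c = 0 ∨ c = 1 := show ∀ c : ZMod 2, c = 0 ∨ c = 1 by decide

/-- A space of countable dimension. -/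
def V : Type := ℕ →₀ F

noncomputable instance : AddCommGroup V := inferInstanceAs (AddCommGroup (ℕ →₀ F))

noncomputable instance : Module F V := inferInstanceAs (Module F (ℕ →₀ F))

instance : Countable V := inferInstanceAs (Countable (ℕ →₀ F))

instance : Nontrivial V := inferInstanceAs (Nontrivial (ℕ →₀ F))

/-- Its endomorphism ring. -/
abbrev E : Type := Module.End F V

/-- `V` is a countable direct sum of copies of itself. -/
noncomputable def eV : V ≃ₗ[F] (ℕ →₀ V) :=
  (Finsupp.domLCongr Nat.pairEquiv.symm ≪≫ₗ Finsupp.curryLinearEquiv F :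
    (ℕ →₀ F) ≃ₗ[F] (ℕ →₀ ℕ →₀ F))

/-- The diagonal endomorphism. -/
noncomputable def δ : E →+* E where
  toFun a := eV.symm.toLinearMap ∘ₗ Finsupp.mapRange.linearMap a ∘ₗ eV.toLinearMap
  map_one' := by
    refine LinearMap.ext fun v => ?_
    simp [Module.End.one_eq_id]
  map_mul' a b := by
    refine LinearMap.ext fun v => ?_
    simp [Module.End.mul_eq_comp, Finsupp.mapRange.linearMap_comp]
  map_zero' := by
    refine LinearMap.ext fun v => ?_
    simp only [LinearMap.comp_apply, LinearMap.zero_apply, LinearEquiv.coe_coe,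
      LinearEquiv.map_eq_zero_iff]
    ext
    simp
  map_add' a b := by
    refine LinearMap.ext fun v => ?_
    simp only [LinearMap.comp_apply, LinearMap.add_apply, LinearEquiv.coe_coe, ← map_add,
      EmbeddingLike.apply_eq_iff_eq]
    ext
    simp

/-- The insertions. -/
noncomputable def ins (i : ℕ) : E := eV.symm.toLinearMap ∘ₗ Finsupp.lsingle i

lemma δ_ins (a : E) (i : ℕ) (v : V) : δ a (ins i v) = ins i (a v) := by
  simp [δ, ins]

lemma exists_dual (t : ℕ → F) (u : Module.Dual F V) :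
    ∃ w : Module.Dual F V, ∀ i v, w (ins i v) = t i * u v :=
  ⟨Finsupp.lsum F (fun i => t i • u) ∘ₗ eV.toLinearMap, fun i v => by simp [ins]⟩

/-- Finite rank. -/
def FR (a : E) : Prop := (Set.range a).Finite

lemma FR.zero : FR 0 := (Set.finite_singleton 0).subset (by rintro _ ⟨v, rfl⟩; rfl)

lemma FR.add {a b : E} (ha : FR a) (hb : FR b) : FR (a + b) :=
  (Set.Finite.image2 (· + ·) ha hb).subset (by rintro _ ⟨v, rfl⟩; exact ⟨_, ⟨v, rfl⟩, _, ⟨v, rfl⟩, rfl⟩)

lemma FR.mul_left {a : E} (ha : FR a) (b : E) : FR (b * a) :=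
  (Set.Finite.image b ha).subset (by rintro _ ⟨v, rfl⟩; exact ⟨_, ⟨v, rfl⟩, rfl⟩)

lemma FR.mul_right {a : E} (ha : FR a) (b : E) : FR (a * b) :=
  Set.Finite.subset ha (by rintro _ ⟨v, rfl⟩; exact ⟨_, rfl⟩)

lemma FR.neg {a : E} (ha : FR a) : FR (-a) := by simpa using ha.mul_left (-1)

lemma FR.smulRight (w : Module.Dual F V) (v : V) : FR (w.smulRight v) :=
  (Set.finite_range fun c : F => c • v).subset (by rintro _ ⟨u, rfl⟩; exact ⟨_, rfl⟩)

lemma exists_ginv (b : E) : ∃ c : E, b * c * b = b := by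
  obtain ⟨g, hg⟩ := b.rangeRestrict.exists_rightInverse_of_surjective b.range_rangeRestrict
  obtain ⟨p, hp⟩ := (LinearMap.range b).subtype.exists_leftInverse_of_injective
    (LinearMap.range b).ker_subtype
  refine ⟨g ∘ₗ p, LinearMap.ext fun v => ?_⟩
  have h1 : p (b v) = b.rangeRestrict v := LinearMap.congr_fun hp (b.rangeRestrict v)
  show b (g (p (b v))) = b v
  rw [h1]
  exact congrArg Subtype.val (LinearMap.congr_fun hg (b.rangeRestrict v))

/-- Stable from level `n` on. -/
def St (n : ℕ) (a : ℕ → E) : Prop := ∀ m, n ≤ m → a (m + 1) = δ (a m)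

lemma St.mono {n m : ℕ} {a : ℕ → E} (ha : St n a) (h : n ≤ m) : St m a :=
  fun k hk => ha k (h.trans hk)

lemma St.zero (n : ℕ) : St n 0 := fun _ _ => by simp

lemma St.one (n : ℕ) : St n 1 := fun _ _ => by simp

lemma St.add {n : ℕ} {a b : ℕ → E} (ha : St n a) (hb : St n b) : St n (a + b) := fun m hm => by
  simp [ha m hm, hb m hm]

lemma St.neg {n : ℕ} {a : ℕ → E} (ha : St n a) : St n (-a) := fun m hm => by
  simp [ha m hm]

lemma St.sub {n : ℕ} {a b : ℕ → E} (ha : St n a) (hb : St n b) : St n (a - b) := fun m hm => by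
  simp [ha m hm, hb m hm]

lemma St.mul {n : ℕ} {a b : ℕ → E} (ha : St n a) (hb : St n b) : St n (a * b) := fun m hm => by
  simp [ha m hm, hb m hm]

lemma St.ext {n : ℕ} {a b : ℕ → E} (ha : St n a) (hb : St n b) (h : ∀ m ≤ n, a m = b m) :
    a = b := by
  funext m
  induction m with
  | zero => exact h 0 (Nat.zero_le _)
  | succ m ih =>
    rcases le_or_gt (m + 1) n with h1 | h1
    · exact h _ h1
    · rw [ha m (by omega), hb m (by omega), ih]

/-- The ring. -/
def RR : Subring (ℕ → E) where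
  carrier := {a | (∃ c : F, a 0 = algebraMap F E c) ∧ (∀ n, FR (a (n + 1) - δ (a n))) ∧
    ∃ n, St n a}
  zero_mem' := ⟨⟨0, by simp⟩, fun n => by simpa using FR.zero, 0, St.zero 0⟩
  one_mem' := ⟨⟨1, by simp⟩, fun n => by simpa using FR.zero, 0, St.one 0⟩
  add_mem' := by
    rintro a b ⟨⟨c, hc⟩, ha, n, hn⟩ ⟨⟨d, hd⟩, hb, m, hm⟩
    refine ⟨⟨c + d, by simp [hc, hd]⟩, fun k => ?_, max n m,
      (hn.mono (le_max_left _ _)).add (hm.mono (le_max_right _ _))⟩
    have := (ha k).add (hb k)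
    rwa [sub_add_sub_comm, ← map_add] at this
  neg_mem' := by
    rintro a ⟨⟨c, hc⟩, ha, n, hn⟩
    refine ⟨⟨-c, by simp [hc]⟩, fun k => ?_, n, hn.neg⟩
    have := (ha k).neg
    rwa [neg_sub', ← map_neg] at this
  mul_mem' := by
    rintro a b ⟨⟨c, hc⟩, ha, n, hn⟩ ⟨⟨d, hd⟩, hb, m, hm⟩
    refine ⟨⟨c * d, by rw [Pi.mul_apply, hc, hd, map_mul]⟩, fun k => ?_, max n m,
      (hn.mono (le_max_left _ _)).mul (hm.mono (le_max_right _ _))⟩
    have := ((ha k).mul_right (b (k + 1))).add ((hb k).mul_left (δ (a k)))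
    rwa [sub_mul, mul_sub, sub_add_sub_cancel, ← map_mul] at this

/-- The sequence with given first term and increments. -/
noncomputable def seq (c : E) (d : ℕ → E) : ℕ → E
  | 0 => c
  | m + 1 => δ (seq c d m) + d m

lemma exists_conc (n : ℕ) {c : E} (hc : FR c) :
    ∃ y : RR, St (n + 1) y.1 ∧ (∀ m ≤ n, y.1 m = 0) ∧ y.1 (n + 1) = c := by
  have h1 : St (n + 1) (seq 0 (Pi.single n c)) := fun m hm => by
    rw [seq, Pi.single_eq_of_ne (by omega), add_zero]
  have h2 : ∀ m ≤ n, seq 0 (Pi.single n c) m = 0 := by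
    intro m hm
    induction m with
    | zero => rfl
    | succ m ih => rw [seq, ih (by omega), Pi.single_eq_of_ne (by omega), map_zero, add_zero]
  refine ⟨⟨seq 0 (Pi.single n c), ⟨0, by simp [seq]⟩, fun m => ?_, _, h1⟩, h1, h2, ?_⟩
  · rw [seq, add_sub_cancel_left]
    rcases eq_or_ne m n with rfl | h
    · rwa [Pi.single_eq_same]
    · rw [Pi.single_eq_of_ne h]
      exact FR.zero
  · show seq 0 (Pi.single n c) (n + 1) = c
    rw [seq, h2 n le_rfl, map_zero, zero_add, Pi.single_eq_same]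

lemma exists_trunc (n : ℕ) (a : RR) : ∃ y : RR, St n y.1 ∧ ∀ m ≤ n, y.1 m = a.1 m := by
  set d : ℕ → E := fun m => if m < n then a.1 (m + 1) - δ (a.1 m) else 0 with hd
  have h1 : St n (seq (a.1 0) d) := fun m hm => by
    rw [seq, hd]
    simp [not_lt.2 hm]
  refine ⟨⟨seq (a.1 0) d, a.2.1, fun m => ?_, _, h1⟩, h1, fun m hm => ?_⟩
  · rw [seq, add_sub_cancel_left, hd]
    simp only
    split_ifs
    · exact a.2.2.1 m
    · exact FR.zero
  · show seq (a.1 0) d m = a.1 m
    induction m with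
    | zero => rfl
    | succ m ih =>
      rw [seq, ih (by omega), hd]
      simp [show m < n by omega]

lemma FR_of_vanish (a : RR) {n : ℕ} (h : a.1 n = 0) : FR (a.1 (n + 1)) := by
  simpa [h] using a.2.2.1 n

lemma regular_St (n : ℕ) : ∀ a : RR, St n a.1 → ∃ x : RR, St n x.1 ∧ a * x * a = a := by
  induction n with
  | zero =>
    intro a ha
    refine ⟨1, St.one 0, Subtype.ext (((ha.mul (St.one 0)).mul ha).ext ha fun m hm => ?_)⟩
    obtain rfl : m = 0 := by omega
    obtain ⟨c, hc⟩ := a.2.1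
    rcases F_cases c with rfl | rfl <;> simp [hc]
  | succ n ih =>
    intro a ha
    obtain ⟨a', ha', haa'⟩ := exists_trunc n a
    obtain ⟨x, hx, hx'⟩ := ih a' ha'
    have hx1 := hx.mono (Nat.le_succ n)
    set b := a - a * x * a with hb
    have hb1 : St (n + 1) b.1 := ha.sub ((ha.mul hx1).mul ha)
    have hb2 : ∀ m ≤ n, b.1 m = 0 := fun m hm => by
      have := congrFun (congrArg Subtype.val hx') m
      show a.1 m - a.1 m * x.1 m * a.1 m = 0
      rw [← haa' m hm]
      exact sub_eq_zero.2 this.symm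
    obtain ⟨c, hc⟩ := exists_ginv (b.1 (n + 1))
    obtain ⟨y, hy1, hy2, hy3⟩ := exists_conc n
      (((FR_of_vanish b (hb2 n le_rfl)).mul_left c).mul_right c)
    have hy4 : b * y * b = b := Subtype.ext (((hb1.mul hy1).mul hb1).ext hb1 fun m hm => by
      show b.1 m * y.1 m * b.1 m = b.1 m
      rcases Nat.lt_succ_iff_lt_or_eq.1 (Nat.lt_succ_of_le hm) with h | rfl
      · rw [hb2 m (by omega), mul_zero]
      · rw [hy3, ← mul_assoc, ← mul_assoc, hc, hc])
    refine ⟨x + (1 - x * a) * y * (1 - a * x), hx1.add ((((St.one _).sub (hx1.mul ha)).mul hy1).mul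
      ((St.one _).sub (ha.mul hx1))), ?_⟩
    have e : a * (x + (1 - x * a) * y * (1 - a * x)) * a = a * x * a + b * y * b := by
      rw [hb]
      noncomm_ring
    rw [e, hy4, hb, add_sub_cancel]

lemma regular (a : RR) : ∃ x : RR, a * x * a = a := by
  obtain ⟨n, hn⟩ := a.2.2.2
  obtain ⟨x, -, hx⟩ := regular_St n a hn
  exact ⟨x, hx⟩

end Pool.Agent.Lib.MP_cfafa5_al
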