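import Mathlib
import Pool.Agent.Lib.MP_cfafa5_al.Ring

/-!
Few right ideals, many uniform left modules.
-/

set_option autoImplicit false

universe v

open MulOpposite Cardinal

namespace Pool.Agent.Lib.MP_cfafa5_al

section right

/-- The part of a right ideal that is stable from level `n`. -/
def part (I : Ideal RRᵐᵒᵖ) (n : ℕ) : Set RR := {a | op a ∈ I ∧ St n a.1}

lemma part_mul {I : Ideal RRᵐᵒᵖ} {n : ℕ} {a b : RR} (ha : a ∈ part I n) (hb : St n b.1) :
    a * b ∈ part I n :=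
  ⟨by rw [op_mul]; exact I.mul_mem_left _ ha.1, ha.2.mul hb⟩

lemma exists_left_unit (I : Ideal RRᵐᵒᵖ) (n : ℕ) {ι : Type} (s : Finset ι) (c : ι → RR)
    (hc : ∀ i ∈ s, c i ∈ part I n) : ∃ e ∈ part I n, ∀ i ∈ s, e * c i = c i := by
  classical
  induction s using Finset.induction_on with
  | empty => exact ⟨0, ⟨I.zero_mem, St.zero n⟩, by simp⟩
  | insert j s _ ih =>
    obtain ⟨e, he, hs⟩ := ih fun i hi => hc i (Finset.mem_insert_of_mem hi)
    have hj := hc j (Finset.mem_insert_self _ _)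
    have h0 : c j - e * c j ∈ part I n :=
      ⟨I.sub_mem hj.1 (part_mul he hj.2).1, hj.2.sub (he.2.mul hj.2)⟩
    obtain ⟨x, hx1, hx⟩ := regular_St n _ h0.2
    have h1 := part_mul (part_mul h0 hx1) (b := 1 - e) ((St.one n).sub he.2)
    refine ⟨e + (c j - e * c j) * x * (1 - e), ⟨I.add_mem he.1 h1.1, he.2.add h1.2⟩,
      fun i hi => ?_⟩
    rw [add_mul, mul_assoc _ (1 - e), sub_mul 1, one_mul]
    rcases Finset.mem_insert.1 hi with rfl | hi
    · rw [hx, add_sub_cancel]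
    · rw [hs i hi, sub_self, mul_zero, add_zero]

/-- A countable family of subsets of `V` that determines the right ideal. -/
def inv (I : Ideal RRᵐᵒᵖ) (p : ℕ × ℕ) : Set V := {v | ∃ e ∈ part I p.1, e.1 p.2 v = v}

lemma exists_test (a : RR) (k : ℕ) (h : ∀ m < k, a.1 m = 0) :
    ∃ T : Finset V, ∀ b : RR, (∀ u ∈ T, b.1 k (a.1 k u) = a.1 k u) → b.1 k * a.1 k = a.1 k := by
  classical
  cases k with
  | zero =>
    obtain ⟨v, hv⟩ := exists_ne (0 : V)
    refine ⟨{v}, fun b hb => ?_⟩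
    have h1 := hb v (Finset.mem_singleton_self v)
    obtain ⟨c, hc⟩ := a.2.1
    obtain ⟨d, hd⟩ := b.2.1
    rcases F_cases c with rfl | rfl
    · simp [hc]
    · rcases F_cases d with rfl | rfl
      · simp [hc, hd, hv.symm] at h1
      · simp [hd]
  | succ k =>
    have h1 := FR_of_vanish a (h k (Nat.lt_succ_self k))
    have h2 : ∀ y : h1.toFinset, ∃ u, a.1 (k + 1) u = y := fun y => h1.mem_toFinset.1 y.2
    choose u hu using h2
    refine ⟨Finset.univ.image u, fun b hb => LinearMap.ext fun w => ?_⟩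
    have h3 := hb _ (Finset.mem_image_of_mem u (Finset.mem_univ
      ⟨a.1 (k + 1) w, h1.mem_toFinset.2 ⟨w, rfl⟩⟩))
    rwa [hu] at h3

lemma le_of_inv {I J : Ideal RRᵐᵒᵖ} (h : inv I = inv J) : I ≤ J := by
  classical
  intro a' ha'
  obtain ⟨a, rfl⟩ := op_surjective a'
  obtain ⟨n, hn⟩ := a.2.2.2
  have h1 : ∀ k u, ∃ g ∈ part J n, g.1 k (a.1 k u) = a.1 k u := by
    intro k u
    obtain ⟨x, hx1, hx⟩ := regular_St n a hn
    have h2 : a.1 k u ∈ inv I (n, k) := ⟨a * x, part_mul ⟨ha', hn⟩ hx1,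
      LinearMap.congr_fun (congrFun (congrArg Subtype.val hx) k) u⟩
    rwa [h] at h2
  have h2 : ∀ k, ∃ e ∈ part J n, ∀ m < k, e.1 m * a.1 m = a.1 m := by
    intro k
    induction k with
    | zero => exact ⟨0, ⟨J.zero_mem, St.zero n⟩, by simp⟩
    | succ k ih =>
      obtain ⟨e, he, hea⟩ := ih
      obtain ⟨T, hT⟩ := exists_test (a - e * a) k fun m hm => sub_eq_zero.2 (hea m hm).symm
      choose g hg hg' using h1 k
      obtain ⟨e', he', hee'⟩ := exists_left_unit J n (Finset.insertNone T)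
        (fun o => o.elim e g) (by
          rintro (_ | u) -
          · exact he
          · exact hg u)
      have h3 : ∀ m, e'.1 m * e.1 m = e.1 m := fun m =>
        congrFun (congrArg Subtype.val (hee' none Finset.none_mem_insertNone)) m
      refine ⟨e', he', fun m hm => ?_⟩
      rcases Nat.lt_succ_iff_lt_or_eq.1 hm with h4 | rfl
      · rw [← hea m h4, ← mul_assoc, h3]
      · have h4 := hT e' fun u hu => by
          have h5 : e'.1 m * (g u).1 m = (g u).1 m :=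
            congrFun (congrArg Subtype.val (hee' (some u) (Finset.some_mem_insertNone.2 hu))) m
          have h6 : e'.1 m (a.1 m u) = a.1 m u := by
            rw [← hg' u]
            exact LinearMap.congr_fun h5 _
          show e'.1 m (a.1 m u - e.1 m (a.1 m u)) = a.1 m u - e.1 m (a.1 m u)
          rw [map_sub, h6]
          exact congrArg _ (LinearMap.congr_fun (h3 m) _)
        change e'.1 m * (a.1 m - e.1 m * a.1 m) = a.1 m - e.1 m * a.1 m at h4
        rw [mul_sub, ← mul_assoc, h3] at h4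
        exact sub_left_injective h4
  obtain ⟨e, he, hea⟩ := h2 (n + 1)
  have h3 : e * a = a := Subtype.ext ((he.2.mul hn).ext hn fun m hm => hea m (by omega))
  rw [← h3]
  exact (part_mul he hn).1

lemma inv_injective : Function.Injective inv := fun _ _ h =>
  le_antisymm (le_of_inv h) (le_of_inv h.symm)

end right

section left

/-- Contraction with a functional on sequences. -/
noncomputable def con (f : Module.Dual F (ℕ → F)) : Module.Dual F V →ₗ[F] Module.Dual F V where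
  toFun w := f ∘ₗ LinearMap.pi fun i => w ∘ₗ ins i
  map_add' w w' := LinearMap.ext fun v => by
    rw [LinearMap.add_apply, LinearMap.comp_apply, LinearMap.comp_apply, LinearMap.comp_apply,
      ← map_add]
    rfl
  map_smul' c w := LinearMap.ext fun v => by
    rw [RingHom.id_apply, LinearMap.smul_apply, LinearMap.comp_apply, LinearMap.comp_apply,
      ← map_smul]
    rfl

lemma con_apply (f : Module.Dual F (ℕ → F)) (w : Module.Dual F V) (v : V) :
    con f w v = f fun i => w (ins i v) := rfl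

lemma con_δ (f : Module.Dual F (ℕ → F)) (w : Module.Dual F V) (a : E) :
    con f (w ∘ₗ δ a) = con f w ∘ₗ a := LinearMap.ext fun v => by
  simp only [con_apply, LinearMap.comp_apply, δ_ins]

lemma exists_con (t : ℕ → F) (u : Module.Dual F V) :
    ∃ w : Module.Dual F V, ∀ f : Module.Dual F (ℕ → F), con f w = f t • u := by
  obtain ⟨w, hw⟩ := exists_dual t u
  refine ⟨w, fun f => LinearMap.ext fun v => ?_⟩
  rw [con_apply, LinearMap.smul_apply, smul_eq_mul, mul_comm, ← smul_eq_mul, ← map_smul]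
  congr 1
  funext i
  rw [hw, Pi.smul_apply, smul_eq_mul, mul_comm]

/-- The tower of functionals attached to `f`. -/
noncomputable def tower (v₀ : V) (f : Module.Dual F (ℕ → F)) :
    ℕ → Module.Dual F (Module.Dual F V)
  | 0 => Module.Dual.eval F V v₀
  | n + 1 => tower v₀ f n ∘ₗ con f

/-- The left ideal attached to `f`. -/
def LL (v₀ : V) (f : Module.Dual F (ℕ → F)) : Ideal RR where
  carrier := {a | ∃ N, ∀ n, N ≤ n → ∀ w : Module.Dual F V, tower v₀ f n (w ∘ₗ a.1 n) = 0}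
  zero_mem' := ⟨0, fun n _ w => by simp⟩
  add_mem' := by
    rintro a b ⟨N, hN⟩ ⟨M, hM⟩
    refine ⟨max N M, fun n hn w => ?_⟩
    have h1 : w ∘ₗ (a + b).1 n = w ∘ₗ a.1 n + w ∘ₗ b.1 n := LinearMap.comp_add _ _ _
    rw [h1, map_add, hN n (le_of_max_le_left hn), hM n (le_of_max_le_right hn), add_zero]
  smul_mem' := by
    rintro b a ⟨N, hN⟩
    exact ⟨N, fun n hn w => hN n hn (w ∘ₗ b.1 n)⟩

variable {v₀ : V} {f g : Module.Dual F (ℕ → F)}

lemma tower_succ {a : ℕ → E} {n : ℕ} (ha : St n a) (w : Module.Dual F V) :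
    tower v₀ f (n + 1) (w ∘ₗ a (n + 1)) = tower v₀ f n (con f w ∘ₗ a n) := by
  rw [tower, LinearMap.comp_apply, ha n le_rfl, con_δ]

lemma mem_LL (hf : f ≠ 0) {a : RR} {n : ℕ} (ha : St n a.1) :
    a ∈ LL v₀ f ↔ ∀ w : Module.Dual F V, tower v₀ f n (w ∘ₗ a.1 n) = 0 := by
  obtain ⟨t, ht⟩ := DFunLike.ne_iff.1 hf
  have h1 : ∀ m, n ≤ m → ((∀ w : Module.Dual F V, tower v₀ f m (w ∘ₗ a.1 m) = 0) ↔
      ∀ w : Module.Dual F V, tower v₀ f n (w ∘ₗ a.1 n) = 0) := by
    intro m hm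
    induction m, hm using Nat.le_induction with
    | base => rfl
    | succ m hm ih =>
      rw [← ih]
      refine ⟨fun h u => ?_, fun h w => by rw [tower_succ (ha.mono hm), h]⟩
      obtain ⟨w, hw⟩ := exists_con t u
      have := h w
      rw [tower_succ (ha.mono hm), hw, LinearMap.smul_comp, map_smul] at this
      exact (smul_eq_zero.1 this).resolve_left ht
  exact ⟨fun ⟨N, hN⟩ => (h1 (max N n) (le_max_right _ _)).1 (hN _ (le_max_left _ _)),
    fun h => ⟨n, fun m hm => (h1 m hm).2 h⟩⟩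

lemma one_not_mem (hv : v₀ ≠ 0) (hf : f ≠ 0) : (1 : RR) ∉ LL v₀ f := fun h =>
  hv ((Module.forall_dual_apply_eq_zero_iff F v₀).1 ((mem_LL hf (n := 0) (St.one 0)).1 h))

lemma exists_tester (hv : v₀ ≠ 0) (n : ℕ) (w : Module.Dual F V) :
    ∃ y : RR, St (n + 1) y.1 ∧ y.1 (n + 1) = w.smulRight v₀ ∧
      ∀ f : Module.Dual F (ℕ → F), f ≠ 0 → ∀ r : RR, St (n + 1) r.1 →
        (y * r ∈ LL v₀ f ↔ tower v₀ f (n + 1) (w ∘ₗ r.1 (n + 1)) = 0) := by
  obtain ⟨y, hy1, -, hy2⟩ := exists_conc n (FR.smulRight w v₀)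
  refine ⟨y, hy1, hy2, fun f hf r hr => ?_⟩
  have h1 : ∀ u : Module.Dual F V, u ∘ₗ (y * r).1 (n + 1) = u v₀ • (w ∘ₗ r.1 (n + 1)) :=
    fun u => LinearMap.ext fun x => by
      show u (y.1 (n + 1) (r.1 (n + 1) x)) = _
      simp [hy2, mul_comm]
  rw [mem_LL hf (hy1.mul hr)]
  refine ⟨fun h => ?_, fun h u => by rw [h1, map_smul, h, smul_zero]⟩
  obtain ⟨u, hu⟩ := not_forall.1 (mt (Module.forall_dual_apply_eq_zero_iff F v₀).1 hv)
  have := h u
  rw [h1, map_smul] at this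
  exact (smul_eq_zero.1 this).resolve_left hu

lemma exists_St (r s : RR) : ∃ n, St (n + 1) r.1 ∧ St (n + 1) s.1 := by
  obtain ⟨n, hn⟩ := r.2.2.2
  obtain ⟨m, hm⟩ := s.2.2.2
  exact ⟨max n m, hn.mono (by omega), hm.mono (by omega)⟩

lemma LL_uniform (hv : v₀ ≠ 0) (hf : f ≠ 0) (r : RR) (hr : r ∉ LL v₀ f) (s : RR)
    (hs : s ∉ LL v₀ f) : ∃ r' s' : RR, r' * r - s' * s ∈ LL v₀ f ∧ r' * r ∉ LL v₀ f := by
  obtain ⟨n, h1, h2⟩ := exists_St r s
  obtain ⟨w, hw⟩ := not_forall.1 (mt (mem_LL hf h1).2 hr)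
  obtain ⟨w', hw'⟩ := not_forall.1 (mt (mem_LL hf h2).2 hs)
  obtain ⟨y, hy1, hy2, hy3⟩ := exists_tester hv n w
  obtain ⟨y', hy1', hy2', -⟩ := exists_tester hv n w'
  refine ⟨y, y', (mem_LL hf ((hy1.mul h1).sub (hy1'.mul h2))).2 fun u => ?_,
    mt (hy3 f hf r h1).1 hw⟩
  have h3 : u ∘ₗ (y * r - y' * s).1 (n + 1) =
      u v₀ • (w ∘ₗ r.1 (n + 1) - w' ∘ₗ s.1 (n + 1)) := LinearMap.ext fun x => by
    show u (y.1 (n + 1) (r.1 (n + 1) x) - y'.1 (n + 1) (s.1 (n + 1) x)) = _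
    simp [hy2, hy2', mul_comm, mul_sub]
  rw [h3, map_smul, map_sub, (F_cases _).resolve_left hw, (F_cases _).resolve_left hw', sub_self,
    smul_zero]

lemma LL_sep (hv : v₀ ≠ 0) (hf : f ≠ 0) (hg : g ≠ 0) (r : RR) (hr : r ∉ LL v₀ f) (s : RR)
    (h : ∀ a : RR, a * r ∈ LL v₀ f ↔ a * s ∈ LL v₀ g) : f = g := by
  obtain ⟨n, h1, h2⟩ := exists_St r s
  have h3 : ∀ m, n ≤ m → ∀ w : Module.Dual F V, tower v₀ f (m + 1) (w ∘ₗ r.1 (m + 1)) = 0 ↔
      tower v₀ g (m + 1) (w ∘ₗ s.1 (m + 1)) = 0 := by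
    intro m hm w
    obtain ⟨y, -, -, hy⟩ := exists_tester hv m w
    rw [← hy f hf r (h1.mono (by omega)), ← hy g hg s (h2.mono (by omega)), h]
  obtain ⟨u, hu⟩ := not_forall.1 (mt (mem_LL hf h1).2 hr)
  have hu' := mt (h3 n le_rfl u).2 hu
  refine LinearMap.ext fun t => ?_
  obtain ⟨w, hw⟩ := exists_con t u
  have h4 := h3 (n + 1) (by omega) w
  rw [tower_succ h1, tower_succ h2, hw, hw, LinearMap.smul_comp, LinearMap.smul_comp, map_smul,
    map_smul, smul_eq_zero, smul_eq_zero, or_iff_left hu, or_iff_left hu'] at h4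
  rcases F_cases (f t) with h5 | h5
  · rw [h5, h4.1 h5]
  · rw [h5, (F_cases (g t)).resolve_left fun h6 => one_ne_zero (h5.symm.trans (h4.2 h6))]

end left

lemma card_lt : #(ℕ × ℕ → Set V) < #{f : Module.Dual F (ℕ → F) // f ≠ 0} := by
  have h1 : #(ℕ × ℕ → Set V) ≤ 𝔠 := by
    rw [← Cardinal.power_def, mk_set, mk_eq_aleph0 (ℕ × ℕ), ← Cardinal.power_mul,
      ← Cardinal.two_power_aleph0]
    refine Cardinal.power_le_power_left two_ne_zero ?_
    exact le_trans (mul_le_mul_left mk_le_aleph0 _) aleph0_mul_aleph0.le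
  have h2 : 𝔠 ≤ Module.rank F (ℕ → F) := by
    rw [rank_fun_infinite, ← Cardinal.power_def, mk_nat, ← Cardinal.two_power_aleph0]
    exact Cardinal.power_le_power_right (Cardinal.two_le_iff.2 ⟨0, 1, zero_ne_one⟩)
  have h3 : 𝔠 < #(Module.Dual F (ℕ → F)) :=
    lt_of_lt_of_le (lt_of_le_of_lt h2 (rank_lt_rank_dual (aleph0_le_continuum.trans h2)))
      (rank_le_card _ _)
  refine lt_of_le_of_lt h1 (not_le.1 fun h4 => ?_)
  classical
  have h5 := mk_le_of_injective (f := Equiv.optionSubtypeNe (0 : Module.Dual F (ℕ → F)) |>.symm)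
    (Equiv.injective _)
  rw [mk_option] at h5
  exact h3.not_ge (h5.trans (add_le_of_le aleph0_le_continuum h4
    (one_le_aleph0.trans aleph0_le_continuum)))

theorem isEmpty_equiv : IsEmpty (Zg.{v} RRᵐᵒᵖ ≃ Zg.{v} RR) := by
  refine ⟨fun e => ?_⟩
  obtain ⟨v₀, hv⟩ := exists_ne (0 : V)
  obtain ⟨θ, hθ⟩ := upper.{v} (S := RRᵐᵒᵖ) fun a => by
    obtain ⟨x, hx⟩ := regular a.unop
    exact ⟨op x, unop_injective (by simpa [mul_assoc] using hx)⟩
  obtain ⟨θ', hθ'⟩ := lower.{v} (fun f : {f : Module.Dual F (ℕ → F) // f ≠ 0} => LL v₀ f.1)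
    (fun f => one_not_mem hv f.2) (fun f => LL_uniform hv f.2)
    fun f g r hr s h => Subtype.ext (LL_sep hv f.2 g.2 r hr s h)
  exact card_lt.not_ge (mk_le_of_injective
    (inv_injective.comp (hθ.comp (e.symm.injective.comp hθ'))))

end Pool.Agent.Lib.MP_cfafa5_al
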